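import Mathlib

/-!
# Uniform comparison of Gagliardo seminorms of different orders

The weighted Gagliardo seminorm of order `s` is controlled by the `L^p` norm and the weighted
seminorm of order `t > s`, with a constant which depends only on `N`, `p` and a lower bound of `s`.
-/

set_option autoImplicit false

open MeasureTheory Metric Set Filter Topology
open scoped ENNReal NNReal

namespace Pool.Agent.Results.MP_95ea62_an.UniformComparisonH85

/-! ### Geometric weights -/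

/-- Abel summation: a tail form of the geometric mean of a sequence of partial sums. -/
theorem abel (d : ℕ → ℝ≥0∞) (q : ℝ≥0∞) (hq : q < 1) :
    (1 - q) * ∑' k, q ^ k * ∑ j ∈ Finset.range (k + 1), d j = ∑' j, d j * q ^ j := by
  have h1 : ∀ k, q ^ k * ∑ j ∈ Finset.range (k + 1), d j =
      ∑' j, (if j ≤ k then q ^ k * d j else 0) := by
    intro k
    rw [Finset.mul_sum, tsum_eq_sum (s := Finset.range (k + 1))]
    · refine Finset.sum_congr rfl fun j hj => ?_
      rw [if_pos (by simpa [Nat.lt_succ_iff] using hj)]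
    · intro j hj
      rw [if_neg (by simpa [Nat.lt_succ_iff] using hj)]
  simp_rw [h1]
  rw [ENNReal.tsum_comm]
  have h2 : ∀ j, ∑' k, (if j ≤ k then q ^ k * d j else 0) = d j * q ^ j * (1 - q)⁻¹ := by
    intro j
    have e1 : ∑' k, (if j ≤ k then q ^ k * d j else 0) = ∑' m, q ^ (m + j) * d j := by
      have hinj : Function.Injective (fun m : ℕ => m + j) := fun a b h => by simpa using h
      rw [← hinj.tsum_eq (f := fun k => (if j ≤ k then q ^ k * d j else 0))]
      · simp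
      · intro k hk
        simp only [Function.mem_support, ne_eq, ite_eq_right_iff, Classical.not_imp] at hk
        exact ⟨k - j, by simp [hk.1]⟩
    rw [e1, ENNReal.tsum_mul_right]
    simp_rw [pow_add]
    rw [ENNReal.tsum_mul_right, ENNReal.tsum_geometric]
    ring
  simp_rw [h2]
  rw [ENNReal.tsum_mul_right, mul_comm, mul_assoc, ENNReal.inv_mul_cancel, mul_one]
  · exact (tsub_pos_of_lt hq).ne'
  · exact ne_top_of_le_ne_top ENNReal.one_ne_top tsub_le_self

/-- Averages of a nondecreasing sequence with respect to geometric weights increase with the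
parameter. -/
theorem geom_mono (b : ℕ → ℝ≥0∞) (hb : Monotone b) {q r : ℝ≥0∞} (hqr : q ≤ r) (hr : r < 1) :
    (1 - q) * ∑' k, q ^ k * b k ≤ (1 - r) * ∑' k, r ^ k * b k := by
  obtain ⟨d, hd⟩ : ∃ d : ℕ → ℝ≥0∞, ∀ k, b k = ∑ j ∈ Finset.range (k + 1), d j := by
    refine ⟨fun j => b j - (if j = 0 then 0 else b (j - 1)), fun k => ?_⟩
    induction k with
    | zero => simp
    | succ k ih =>
      rw [Finset.sum_range_succ, ← ih]
      simp only [Nat.add_eq_zero_iff, one_ne_zero, and_false, if_false, Nat.add_sub_cancel]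
      rw [add_tsub_cancel_of_le (hb (Nat.le_succ k))]
  simp_rw [hd]
  rw [abel d q (hqr.trans_lt hr), abel d r hr]
  gcongr


/-! ### Dyadic shells -/

section shells

variable {N : ℕ}

/-- The space `ℝ^N`. -/
abbrev E (N : ℕ) := EuclideanSpace ℝ (Fin N)

/-- The shell `1/2 ≤ |h| < 1`. -/
def shell (N : ℕ) : Set (E N) := ball 0 1 \ ball 0 (1 / 2)

theorem measurableSet_shell : MeasurableSet (shell N) :=
  measurableSet_ball.diff measurableSet_ball

/-- Scaling in a set integral. -/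
theorem scale (G : E N → ℝ≥0∞) (hG : Measurable G) (S : Set (E N)) (hS : MeasurableSet S) {r : ℝ}
    (hr : 0 < r) :
    ∫⁻ h in (fun x => r⁻¹ • x) ⁻¹' S, G h = ∫⁻ h in S, ENNReal.ofReal (r ^ N) * G (r • h) := by
  have hm : Measurable fun x : E N => r⁻¹ • x := measurable_const_smul _
  have h1 : ∫⁻ h in S, G (r • h) = ∫⁻ h, (S.indicator fun x => G (r • x)) h := by
    rw [lintegral_indicator hS]
  have h2 : ∀ h, (S.indicator fun x => G (r • x)) h =
      (((fun x => r⁻¹ • x) ⁻¹' S).indicator G) (r • h) := by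
    intro h
    by_cases hh : h ∈ S
    · rw [indicator_of_mem hh, indicator_of_mem]
      simpa [smul_smul, hr.ne'] using hh
    · rw [indicator_of_notMem hh, indicator_of_notMem]
      simpa [smul_smul, hr.ne'] using hh
  have hmeas : Measurable (((fun x => r⁻¹ • x) ⁻¹' S).indicator G) := hG.indicator (hm hS)
  rw [lintegral_const_mul' _ _ ENNReal.ofReal_ne_top, h1]
  simp_rw [h2]
  rw [← lintegral_map (f := (((fun x => r⁻¹ • x) ⁻¹' S).indicator G)) hmeas
    (measurable_const_smul r), Measure.map_addHaar_smul _ hr.ne', lintegral_smul_measure,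
    lintegral_indicator (hm hS), smul_eq_mul, ← mul_assoc, ← ENNReal.ofReal_mul (by positivity)]
  simp only [finrank_euclideanSpace, Fintype.card_fin]
  rw [abs_of_pos (by positivity), mul_inv_cancel₀ (by positivity), ENNReal.ofReal_one, one_mul]

/-- Decomposition of the unit ball in dyadic shells. -/
theorem ball_eq (hN : 1 ≤ N) (G : E N → ℝ≥0∞) (hG : Measurable G) :
    ∫⁻ h in ball 0 1, G h =
      ∫⁻ h in shell N, ∑' k : ℕ, ENNReal.ofReal (((1 / 2 : ℝ) ^ k) ^ N) * G (((1 / 2 : ℝ) ^ k) • h) := by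
  have hne : Nonempty (Fin N) := ⟨⟨0, hN⟩⟩
  have hmem : ∀ (k : ℕ) (h : E N), h ∈ (fun x : E N => ((1 / 2 : ℝ) ^ k)⁻¹ • x) ⁻¹' shell N ↔
      (1 / 2 : ℝ) ^ (k + 1) ≤ ‖h‖ ∧ ‖h‖ < (1 / 2 : ℝ) ^ k := by
    intro k h
    have hk : (0 : ℝ) < (1 / 2) ^ k := by positivity
    simp only [shell, mem_preimage, Set.mem_sdiff, mem_ball_zero_iff, norm_smul, norm_inv, norm_pow,
      not_lt]
    rw [show ‖(1 / 2 : ℝ)‖ = 1 / 2 by norm_num, inv_mul_lt_iff₀ hk, le_inv_mul_iff₀ hk, mul_one,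
      pow_succ, and_comm]
  have hdisj : Pairwise (Function.onFun Disjoint fun k : ℕ =>
      (fun x : E N => ((1 / 2 : ℝ) ^ k)⁻¹ • x) ⁻¹' shell N) := by
    intro i j hij
    rw [Function.onFun, Set.disjoint_left]
    intro h hi hj
    rw [hmem] at hi hj
    rcases lt_or_gt_of_ne hij with h1 | h1
    · have h2 := pow_le_pow_of_le_one (by norm_num : (0 : ℝ) ≤ 1 / 2) (by norm_num)
        (Nat.succ_le_of_lt h1)
      exact absurd (hi.1.trans_lt (hj.2.trans_le h2)) (lt_irrefl _)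
    · have h2 := pow_le_pow_of_le_one (by norm_num : (0 : ℝ) ≤ 1 / 2) (by norm_num)
        (Nat.succ_le_of_lt h1)
      exact absurd (hj.1.trans_lt (hi.2.trans_le h2)) (lt_irrefl _)
  have hunion : (⋃ k : ℕ, (fun x : E N => ((1 / 2 : ℝ) ^ k)⁻¹ • x) ⁻¹' shell N) =
      ball 0 1 \ {0} := by
    ext h
    simp only [mem_iUnion, Set.mem_sdiff, mem_ball_zero_iff, mem_singleton_iff]
    constructor
    · rintro ⟨k, hk⟩
      rw [hmem] at hk
      refine ⟨hk.2.trans_le (pow_le_one₀ (by norm_num) (by norm_num)), fun h0 => ?_⟩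
      have := hk.1
      rw [h0, norm_zero] at this
      exact absurd this (not_le.2 (by positivity))
    · rintro ⟨h1, h0⟩
      have hpos : 0 < ‖h‖ := norm_pos_iff.2 h0
      obtain ⟨k, hk1, hk2⟩ := exists_nat_pow_near_of_lt_one hpos h1.le (by norm_num : (0 : ℝ) < 1 / 2)
        (by norm_num)
      rcases eq_or_lt_of_le hk2 with h3 | h3
      · rcases k with _ | k
        · simp at h3; linarith
        · refine ⟨k + 1 - 1, ?_⟩
          rw [hmem]
          simp only [Nat.add_sub_cancel]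
          exact ⟨h3.ge, by rw [h3]; exact pow_lt_pow_right_of_lt_one₀ (by norm_num) (by norm_num) (by omega)⟩
      · exact ⟨k, (hmem _ _).2 ⟨hk1.le, h3⟩⟩
  have h0 : ∫⁻ h in ball 0 1, G h = ∫⁻ h in ball (0 : E N) 1 \ {0}, G h := by
    apply setLIntegral_congr
    exact (sdiff_ae_eq_self.2 (measure_mono_null inter_subset_right (measure_singleton _))).symm
  rw [h0, ← hunion, lintegral_iUnion (fun k => (measurable_const_smul _) measurableSet_shell) hdisj]
  have h1 : ∀ k : ℕ, ∫⁻ h in (fun x : E N => ((1 / 2 : ℝ) ^ k)⁻¹ • x) ⁻¹' shell N, G h =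
      ∫⁻ h in shell N, ENNReal.ofReal (((1 / 2 : ℝ) ^ k) ^ N) * G (((1 / 2 : ℝ) ^ k) • h) :=
    fun k => scale G hG _ measurableSet_shell (by positivity)
  simp_rw [h1]
  rw [lintegral_tsum]
  intro k
  exact ((hG.comp (measurable_const_smul _)).const_mul _).aemeasurable


/-- The local part of the weighted seminorm is monotone in `s`. -/
theorem local_mono (hN : 1 ≤ N) {p : ℝ} (hp : 1 < p) (W : E N → ℝ≥0∞) (hW : Measurable W)
    (hd : ∀ h, W ((2 : ℝ) • h) ≤ ENNReal.ofReal (2 ^ p) * W h) {s t : ℝ} (hst : s < t)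
    (ht : t < 1) :
    (1 - ENNReal.ofReal (2 ^ (-((1 - s) * p)))) *
        ∫⁻ h in ball 0 1, W h * ENNReal.ofReal (‖h‖ ^ (-(N + s * p))) ≤
      (1 - ENNReal.ofReal (2 ^ (-((1 - t) * p)))) *
        ∫⁻ h in ball 0 1, W h * ENNReal.ofReal (‖h‖ ^ (-(N + t * p))) := by
  have hp0 : 0 < p := by linarith
  have hG : ∀ u : ℝ, Measurable fun h : E N => W h * ENNReal.ofReal (‖h‖ ^ (-(N + u * p))) :=
    fun u => hW.mul (by fun_prop)
  -- the series in each shell
  have hser : ∀ (u : ℝ) (h : E N), h ∈ shell N →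
      ∑' k : ℕ, ENNReal.ofReal (((1 / 2 : ℝ) ^ k) ^ N) *
        (W (((1 / 2 : ℝ) ^ k) • h) * ENNReal.ofReal (‖((1 / 2 : ℝ) ^ k) • h‖ ^ (-(N + u * p)))) =
      ENNReal.ofReal (‖h‖ ^ (-(N + u * p))) *
        ∑' k : ℕ, ENNReal.ofReal (2 ^ (-((1 - u) * p))) ^ k *
          (ENNReal.ofReal (2 ^ p) ^ k * W (((1 / 2 : ℝ) ^ k) • h)) := by
    intro u h hh
    rw [← ENNReal.tsum_mul_left]
    refine tsum_congr fun k => ?_
    have e : ENNReal.ofReal (((1 / 2 : ℝ) ^ k) ^ N) *
        ENNReal.ofReal (‖((1 / 2 : ℝ) ^ k) • h‖ ^ (-(N + u * p))) =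
        ENNReal.ofReal (‖h‖ ^ (-(N + u * p))) *
          (ENNReal.ofReal (2 ^ (-((1 - u) * p))) ^ k * ENNReal.ofReal (2 ^ p) ^ k) := by
      rw [← mul_pow, ← ENNReal.ofReal_mul (by positivity),
        ← ENNReal.ofReal_mul (q := (2 : ℝ) ^ p) (by positivity),
        ← ENNReal.ofReal_pow (by positivity), ← ENNReal.ofReal_mul (by positivity)]
      congr 1
      rw [norm_smul, norm_pow, show ‖(1 / 2 : ℝ)‖ = 1 / 2 by norm_num,
        Real.mul_rpow (by positivity) (norm_nonneg _), ← Real.rpow_add two_pos]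
      have e1 : ((1 / 2 : ℝ) ^ k) ^ N = (2 : ℝ) ^ (-(k * N : ℝ)) := by
        rw [← pow_mul, one_div, inv_pow, ← Real.rpow_natCast, ← Real.rpow_neg two_pos.le]
        push_cast; rfl
      have e2 : ((1 / 2 : ℝ) ^ k) ^ (-(N + u * p)) = (2 : ℝ) ^ (k * (N + u * p)) := by
        rw [one_div, inv_pow, ← Real.rpow_natCast, ← Real.rpow_neg two_pos.le,
          ← Real.rpow_mul two_pos.le]
        congr 1; ring
      have e3 : ((2 : ℝ) ^ (-((1 - u) * p) + p)) ^ k = (2 : ℝ) ^ (k * (u * p)) := by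
        rw [← Real.rpow_natCast, ← Real.rpow_mul two_pos.le]
        congr 1; ring
      rw [e1, e2, e3]
      have e4 : (2 : ℝ) ^ (k * (u * p)) = 2 ^ (-(k * N : ℝ)) * 2 ^ (k * (N + u * p)) := by
        rw [← Real.rpow_add two_pos]; congr 1; ring
      rw [e4]; ring
    calc _ = (ENNReal.ofReal (((1 / 2 : ℝ) ^ k) ^ N) *
          ENNReal.ofReal (‖((1 / 2 : ℝ) ^ k) • h‖ ^ (-(N + u * p)))) *
            W (((1 / 2 : ℝ) ^ k) • h) := by ring
      _ = _ := by rw [e]; ring
  -- monotonicity along each ray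
  have hmono : ∀ h : E N, Monotone fun k : ℕ =>
      ENNReal.ofReal (2 ^ p) ^ k * W (((1 / 2 : ℝ) ^ k) • h) := by
    intro h
    refine monotone_nat_of_le_succ fun k => ?_
    have h1 := hd (((1 / 2 : ℝ) ^ (k + 1)) • h)
    rw [smul_smul, show (2 : ℝ) * (1 / 2) ^ (k + 1) = (1 / 2) ^ k by rw [pow_succ]; ring] at h1
    rw [pow_succ, mul_assoc]
    gcongr
  have hlt : ∀ u : ℝ, u < 1 → ENNReal.ofReal (2 ^ (-((1 - u) * p))) < 1 := by
    intro u hu
    rw [ENNReal.ofReal_lt_one]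
    exact Real.rpow_lt_one_of_one_lt_of_neg one_lt_two
      (by have : 0 < (1 - u) * p := mul_pos (by linarith) hp0; linarith)
  have hle : ENNReal.ofReal (2 ^ (-((1 - s) * p))) ≤ ENNReal.ofReal (2 ^ (-((1 - t) * p))) := by
    apply ENNReal.ofReal_le_ofReal
    apply Real.rpow_le_rpow_of_exponent_le one_le_two
    nlinarith
  rw [ball_eq hN _ (hG s), ball_eq hN _ (hG t), ← lintegral_const_mul' _ _
    (ne_top_of_le_ne_top ENNReal.one_ne_top tsub_le_self), ← lintegral_const_mul' _ _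
    (ne_top_of_le_ne_top ENNReal.one_ne_top tsub_le_self)]
  refine setLIntegral_mono' measurableSet_shell fun h hh => ?_
  rw [hser s h hh, hser t h hh]
  have hh' : h ∈ shell N := hh
  simp only [shell, Set.mem_sdiff, mem_ball_zero_iff, not_lt] at hh'
  have hpos : 0 < ‖h‖ := by linarith [hh'.2]
  have hk : ENNReal.ofReal (‖h‖ ^ (-(N + s * p))) ≤ ENNReal.ofReal (‖h‖ ^ (-(N + t * p))) := by
    apply ENNReal.ofReal_le_ofReal
    apply Real.rpow_le_rpow_of_exponent_ge hpos hh'.1.le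
    nlinarith
  have hg := geom_mono _ (hmono h) hle (hlt t ht)
  calc _ = ENNReal.ofReal (‖h‖ ^ (-(N + s * p))) * ((1 - ENNReal.ofReal (2 ^ (-((1 - s) * p)))) *
        ∑' k : ℕ, ENNReal.ofReal (2 ^ (-((1 - s) * p))) ^ k *
          (ENNReal.ofReal (2 ^ p) ^ k * W (((1 / 2 : ℝ) ^ k) • h))) := by ring
    _ ≤ ENNReal.ofReal (‖h‖ ^ (-(N + t * p))) * ((1 - ENNReal.ofReal (2 ^ (-((1 - t) * p)))) *
        ∑' k : ℕ, ENNReal.ofReal (2 ^ (-((1 - t) * p))) ^ k *
          (ENNReal.ofReal (2 ^ p) ^ k * W (((1 / 2 : ℝ) ^ k) • h))) := by gcongr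
    _ = _ := by ring

end shells


/-! ### The weighted seminorms -/

/-- The Gagliardo seminorm `[f]_{s,p}` of a function on `ℝ^N`, an element of `[0, ∞]`. -/
noncomputable def gagliardo {N : ℕ} (s p : ℝ) (f : E N → ℂ) : ℝ≥0∞ :=
  (∫⁻ x, ∫⁻ y, ENNReal.ofReal (‖f x - f y‖ ^ p / ‖x - y‖ ^ ((N : ℝ) + s * p))) ^ (1 / p)

/-- The `L^p` norm of a function on `ℝ^N`, an element of `[0, ∞]`. -/
noncomputable def lpNorm {N : ℕ} (p : ℝ) (f : E N → ℂ) : ℝ≥0∞ :=
  (∫⁻ x, ENNReal.ofReal (‖f x‖ ^ p)) ^ (1 / p)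

section main

variable {N : ℕ} {p : ℝ} {f : E N → ℂ}

/-- The `p`-th power of the modulus of smoothness. -/
noncomputable def modulus (p : ℝ) (f : E N → ℂ) (h : E N) : ℝ≥0∞ :=
  ∫⁻ x, ENNReal.ofReal (‖f (x + h) - f x‖ ^ p)

theorem measurable_modulus (hf : Measurable f) : Measurable (modulus p f) := by
  unfold modulus
  exact Measurable.lintegral_prod_right' (f := fun z : E N × E N =>
    ENNReal.ofReal (‖f (z.2 + z.1) - f z.2‖ ^ p)) (by fun_prop)

theorem eLpNorm_pow (hp : 0 < p) (g : E N → ℂ) :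
    ∫⁻ x, ENNReal.ofReal (‖g x‖ ^ p) = eLpNorm g (ENNReal.ofReal p) volume ^ p := by
  rw [eLpNorm_eq_lintegral_rpow_enorm_toReal (by simpa using hp) ENNReal.ofReal_ne_top,
    ENNReal.toReal_ofReal hp.le, ← ENNReal.rpow_mul, one_div, inv_mul_cancel₀ hp.ne',
    ENNReal.rpow_one]
  refine lintegral_congr fun x => ?_
  rw [← ENNReal.ofReal_rpow_of_nonneg (norm_nonneg _) hp.le, ofReal_norm]

theorem modulus_eq (hp : 0 < p) (h : E N) :
    modulus p f h = eLpNorm (fun x => f (x + h) - f x) (ENNReal.ofReal p) volume ^ p :=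
  eLpNorm_pow hp _

theorem eLpNorm_translate (g : E N → ℂ) (hg : Measurable g) (h : E N) (q : ℝ≥0∞) :
    eLpNorm (fun x => g (x + h)) q volume = eLpNorm g q volume :=
  eLpNorm_comp_measurePreserving hg.aestronglyMeasurable (measurePreserving_add_right volume h)

theorem modulus_double (hp : 1 < p) (hf : Measurable f) (h : E N) :
    modulus p f ((2 : ℝ) • h) ≤ ENNReal.ofReal (2 ^ p) * modulus p f h := by
  have hp0 : 0 < p := by linarith
  rw [modulus_eq hp0, modulus_eq hp0, ← ENNReal.ofReal_rpow_of_pos two_pos,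
    ← ENNReal.mul_rpow_of_nonneg _ _ hp0.le]
  refine ENNReal.rpow_le_rpow ?_ hp0.le
  have h1 : (fun x => f (x + (2 : ℝ) • h) - f x) =
      (fun x => f (x + h + h) - f (x + h)) + fun x => f (x + h) - f x := by
    funext x
    simp only [Pi.add_apply, two_smul, add_assoc]
    ring
  rw [h1]
  refine (eLpNorm_add_le (by fun_prop) (by fun_prop) (by
    rw [← ENNReal.ofReal_one]; exact ENNReal.ofReal_le_ofReal hp.le)).trans ?_
  rw [eLpNorm_translate (fun x => f (x + h) - f x) (by fun_prop) h]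
  simp [two_mul]

theorem modulus_le (hp : 1 < p) (hf : Measurable f) (h : E N) :
    modulus p f h ≤ ENNReal.ofReal (2 ^ p) * ∫⁻ x, ENNReal.ofReal (‖f x‖ ^ p) := by
  have hp0 : 0 < p := by linarith
  rw [modulus_eq hp0, eLpNorm_pow hp0, ← ENNReal.ofReal_rpow_of_pos two_pos,
    ← ENNReal.mul_rpow_of_nonneg _ _ hp0.le]
  refine ENNReal.rpow_le_rpow ?_ hp0.le
  have h1 : (fun x => f (x + h) - f x) = (fun x => f (x + h)) - f := rfl
  rw [h1]
  have hfh : AEStronglyMeasurable (fun x => f (x + h)) volume :=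
    (hf.comp (measurable_add_const h)).aestronglyMeasurable
  refine (eLpNorm_sub_le hfh hf.aestronglyMeasurable (by
    rw [← ENNReal.ofReal_one]; exact ENNReal.ofReal_le_ofReal hp.le)).trans ?_
  rw [eLpNorm_translate f hf h]
  simp [two_mul]

/-- The Gagliardo seminorm in terms of the modulus of smoothness. -/
theorem gagliardo_eq (hf : Measurable f) (s : ℝ) :
    ∫⁻ x, ∫⁻ y, ENNReal.ofReal (‖f x - f y‖ ^ p / ‖x - y‖ ^ ((N : ℝ) + s * p)) =
      ∫⁻ h, modulus p f h * ENNReal.ofReal (‖h‖ ^ (-((N : ℝ) + s * p))) := by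
  have h1 : ∀ x : E N, ∫⁻ y, ENNReal.ofReal (‖f x - f y‖ ^ p / ‖x - y‖ ^ ((N : ℝ) + s * p)) =
      ∫⁻ h, ENNReal.ofReal (‖f (x + h) - f x‖ ^ p) *
        ENNReal.ofReal (‖h‖ ^ (-((N : ℝ) + s * p))) := by
    intro x
    rw [← lintegral_add_left_eq_self _ x]
    refine lintegral_congr fun h => ?_
    rw [← ENNReal.ofReal_mul (by positivity), norm_sub_rev (f x), Real.rpow_neg (norm_nonneg _),
      ← div_eq_mul_inv]
    congr 3
    rw [sub_add_cancel_left, norm_neg]
  simp_rw [h1]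
  rw [lintegral_lintegral_swap]
  · refine lintegral_congr fun h => ?_
    rw [modulus, lintegral_mul_const' _ _ ENNReal.ofReal_ne_top]
  · refine Measurable.aemeasurable ?_
    unfold Function.uncurry
    fun_prop


theorem weight_lower (hp : 1 < p) {s : ℝ} (hs : 0 < s) (hs1 : s < 1) :
    ENNReal.ofReal (1 - s) ≤ ENNReal.ofReal 2 * (1 - ENNReal.ofReal (2 ^ (-((1 - s) * p)))) := by
  rw [← ENNReal.ofReal_one, ← ENNReal.ofReal_sub _ (by positivity),
    ← ENNReal.ofReal_mul (by norm_num)]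
  apply ENNReal.ofReal_le_ofReal
  have h1 : (2 : ℝ) ^ (-((1 - s) * p)) ≤ 2 ^ (-(1 - s)) := by
    apply Real.rpow_le_rpow_of_exponent_le one_le_two
    nlinarith
  have h2 : (2 : ℝ) ^ (-(1 - s)) ≤ 1 + (1 - s) * (-1 / 2) := by
    have h3 := rpow_one_add_le_one_add_mul_self (s := (-1 / 2 : ℝ)) (p := 1 - s) (by norm_num)
      (by linarith) (by linarith)
    rw [Real.rpow_neg two_pos.le, ← Real.inv_rpow two_pos.le]
    norm_num at h3 ⊢
    linarith
  linarith

theorem weight_upper (hp : 1 < p) {t : ℝ} (ht1 : t < 1) :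
    (1 - ENNReal.ofReal (2 ^ (-((1 - t) * p)))) ≤ ENNReal.ofReal (p * (1 - t)) := by
  rw [← ENNReal.ofReal_one, ← ENNReal.ofReal_sub _ (by positivity)]
  apply ENNReal.ofReal_le_ofReal
  have h0 : 0 < (1 - t) * p := mul_pos (by linarith) (by linarith)
  have h1 : (2 : ℝ) ^ (-((1 - t) * p)) = Real.exp (Real.log 2 * (-((1 - t) * p))) := by
    rw [Real.rpow_def_of_pos two_pos]
  rw [h1]
  have h2 := Real.add_one_le_exp (Real.log 2 * (-((1 - t) * p)))
  have h3 : Real.log 2 ≤ 1 := by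
    have := Real.log_two_lt_d9
    linarith
  nlinarith

/-- The integral of `|h| ^ (-r)` far from the origin. -/
theorem far_lt_top {r : ℝ} (hr : (N : ℝ) < r) :
    ∫⁻ h in (ball (0 : E N) 1)ᶜ, ENNReal.ofReal (‖h‖ ^ (-r)) < ∞ := by
  have hr0 : 0 < r := lt_of_le_of_lt (Nat.cast_nonneg _) hr
  have h1 : ∀ h ∈ (ball (0 : E N) 1)ᶜ, ENNReal.ofReal (‖h‖ ^ (-r)) ≤
      ENNReal.ofReal (2 ^ r) * ENNReal.ofReal ((1 + ‖h‖) ^ (-r)) := by
    intro h hh
    simp only [mem_compl_iff, mem_ball_zero_iff, not_lt] at hh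
    rw [← ENNReal.ofReal_mul (by positivity)]
    apply ENNReal.ofReal_le_ofReal
    rw [Real.rpow_neg (by positivity), Real.rpow_neg (by positivity), ← div_eq_mul_inv,
      ← Real.div_rpow (by positivity) (by positivity), ← Real.inv_rpow (by positivity)]
    apply Real.rpow_le_rpow (by positivity) _ hr0.le
    rw [inv_le_comm₀ (by linarith) (by positivity), inv_div]
    linarith
  calc _ ≤ ∫⁻ h in (ball (0 : E N) 1)ᶜ, ENNReal.ofReal (2 ^ r) * ENNReal.ofReal ((1 + ‖h‖) ^ (-r)) :=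
        setLIntegral_mono' measurableSet_ball.compl h1
    _ ≤ ∫⁻ h : E N, ENNReal.ofReal (2 ^ r) * ENNReal.ofReal ((1 + ‖h‖) ^ (-r)) :=
        setLIntegral_le_lintegral _ _
    _ < ∞ := by
        rw [lintegral_const_mul' _ _ ENNReal.ofReal_ne_top]
        exact ENNReal.mul_lt_top ENNReal.ofReal_lt_top
          (finite_integral_one_add_norm (by simpa using hr))

/-- The estimate for the `p`-th powers. -/
theorem power_estimate (hN : 1 ≤ N) (hp : 1 < p) {θ s t : ℝ} (hθ : 0 < θ) (hθ1 : θ < 1)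
    (hs : θ < s) (hst : s < t) (ht : t < 1) (hf : Measurable f) :
    ENNReal.ofReal (min s (1 - s)) *
        ∫⁻ h, modulus p f h * ENNReal.ofReal (‖h‖ ^ (-((N : ℝ) + s * p))) ≤
      ENNReal.ofReal (2 * p / θ) * (ENNReal.ofReal (min t (1 - t)) *
        ∫⁻ h, modulus p f h * ENNReal.ofReal (‖h‖ ^ (-((N : ℝ) + t * p)))) +
      (ENNReal.ofReal (2 ^ p) * ∫⁻ h in (ball (0 : E N) 1)ᶜ, ENNReal.ofReal (‖h‖ ^ (-((N : ℝ) + θ * p)))) *
        ∫⁻ x, ENNReal.ofReal (‖f x‖ ^ p) := by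
  have hp0 : 0 < p := by linarith
  have hloc := local_mono hN hp (modulus p f) (measurable_modulus hf) (modulus_double hp hf) hst ht
  set F := ∫⁻ x, ENNReal.ofReal (‖f x‖ ^ p) with hF
  rw [← lintegral_add_compl (fun h => modulus p f h * ENNReal.ofReal (‖h‖ ^ (-((N : ℝ) + s * p))))
    (measurableSet_ball (x := (0 : E N)) (ε := 1)), mul_add]
  apply add_le_add
  · have h1 : ENNReal.ofReal (min s (1 - s)) ≤
        ENNReal.ofReal 2 * (1 - ENNReal.ofReal (2 ^ (-((1 - s) * p)))) :=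
      (ENNReal.ofReal_le_ofReal (min_le_right _ _)).trans
        (weight_lower hp (by linarith) (by linarith))
    have h2 : ENNReal.ofReal (p * (1 - t)) ≤
        ENNReal.ofReal (p / θ) * ENNReal.ofReal (min t (1 - t)) := by
      rw [← ENNReal.ofReal_mul (by positivity)]
      apply ENNReal.ofReal_le_ofReal
      have h3 : θ * (1 - t) ≤ min t (1 - t) := by
        apply le_min <;> nlinarith
      calc p * (1 - t) = p / θ * (θ * (1 - t)) := by field_simp
        _ ≤ _ := by gcongr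
    calc _ ≤ (ENNReal.ofReal 2 * (1 - ENNReal.ofReal (2 ^ (-((1 - s) * p))))) *
          ∫⁻ h in ball (0 : E N) 1, modulus p f h * ENNReal.ofReal (‖h‖ ^ (-((N : ℝ) + s * p))) := by
            gcongr
      _ = ENNReal.ofReal 2 * ((1 - ENNReal.ofReal (2 ^ (-((1 - s) * p)))) *
          ∫⁻ h in ball (0 : E N) 1, modulus p f h * ENNReal.ofReal (‖h‖ ^ (-((N : ℝ) + s * p)))) := by
            ring
      _ ≤ ENNReal.ofReal 2 * ((1 - ENNReal.ofReal (2 ^ (-((1 - t) * p)))) *
          ∫⁻ h in ball (0 : E N) 1, modulus p f h * ENNReal.ofReal (‖h‖ ^ (-((N : ℝ) + t * p)))) := by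
            gcongr
      _ ≤ ENNReal.ofReal 2 * ((ENNReal.ofReal (p / θ) * ENNReal.ofReal (min t (1 - t))) *
          ∫⁻ h, modulus p f h * ENNReal.ofReal (‖h‖ ^ (-((N : ℝ) + t * p)))) := by
            gcongr
            · exact (weight_upper hp ht).trans h2
            · exact Measure.restrict_le_self
      _ = _ := by
            rw [show 2 * p / θ = 2 * (p / θ) by ring, ENNReal.ofReal_mul two_pos.le]
            ring
  · have h1 : ENNReal.ofReal (min s (1 - s)) ≤ 1 := by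
      rw [← ENNReal.ofReal_one]
      apply ENNReal.ofReal_le_ofReal
      exact (min_le_right _ _).trans (by linarith)
    have h2 : ∫⁻ h in (ball (0 : E N) 1)ᶜ, modulus p f h * ENNReal.ofReal (‖h‖ ^ (-((N : ℝ) + s * p))) ≤
        ∫⁻ h in (ball (0 : E N) 1)ᶜ, (ENNReal.ofReal (2 ^ p) * F) *
          ENNReal.ofReal (‖h‖ ^ (-((N : ℝ) + θ * p))) := by
      refine setLIntegral_mono' measurableSet_ball.compl fun h hh => ?_
      simp only [mem_compl_iff, mem_ball_zero_iff, not_lt] at hh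
      gcongr
      · exact modulus_le hp hf h
    rw [lintegral_const_mul _ (by fun_prop)] at h2
    calc _ ≤ 1 * ((ENNReal.ofReal (2 ^ p) * F) *
          ∫⁻ h in (ball (0 : E N) 1)ᶜ, ENNReal.ofReal (‖h‖ ^ (-((N : ℝ) + θ * p)))) :=
          mul_le_mul' h1 h2
      _ = _ := by ring

end main

/-- **Uniform comparison of Gagliardo seminorms.** For all `N ≥ 1`, `p ∈ (1, ∞)` and `θ ∈ (0, 1)`
there is a constant `C > 0` such that for all `θ < s < t < 1` and all measurable `f : ℝ^N → ℂ`, in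
particular for all Schwartz functions,
`min {s, 1-s} ^ (1/p) [f]_{s,p} ≤ C (‖f‖_p + min {t, 1-t} ^ (1/p) [f]_{t,p})`. -/
theorem result (N : ℕ) (hN : 1 ≤ N) (p : ℝ) (hp : 1 < p) (θ : ℝ) (hθ : 0 < θ) (hθ1 : θ < 1) :
    ∃ C : ℝ, 0 < C ∧ ∀ s t : ℝ, θ < s → s < t → t < 1 → ∀ f : E N → ℂ, Measurable f →
      ENNReal.ofReal (min s (1 - s) ^ (1 / p)) * gagliardo s p f ≤
        ENNReal.ofReal C * (lpNorm p f +
          ENNReal.ofReal (min t (1 - t) ^ (1 / p)) * gagliardo t p f) := by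
  have hp0 : 0 < p := by linarith
  have hp1 : 0 < 1 / p := by positivity
  have hp2 : 1 / p ≤ 1 := by rw [div_le_one hp0]; exact hp.le
  set K := ENNReal.ofReal (2 ^ p) *
    ∫⁻ h in (ball (0 : E N) 1)ᶜ, ENNReal.ofReal (‖h‖ ^ (-((N : ℝ) + θ * p))) with hK
  have hKt : K ≠ ∞ := (ENNReal.mul_lt_top ENNReal.ofReal_lt_top
    (far_lt_top (by nlinarith [mul_pos hθ hp0]))).ne
  set C := max (2 * p / θ) K.toReal with hC
  have hC0 : 0 < C := lt_max_of_lt_left (by positivity)
  refine ⟨C ^ (1 / p), by positivity, fun s t hs hst ht f hf => ?_⟩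
  have hm : ∀ u : ℝ, 0 < u → u < 1 → 0 < min u (1 - u) := fun u h0 h1 =>
    lt_min h0 (by linarith)
  have key := power_estimate hN hp hθ hθ1 hs hst ht hf
  have e : ∀ u : ℝ, 0 < u → u < 1 → ENNReal.ofReal (min u (1 - u) ^ (1 / p)) * gagliardo u p f =
      (ENNReal.ofReal (min u (1 - u)) *
        ∫⁻ h, modulus p f h * ENNReal.ofReal (‖h‖ ^ (-((N : ℝ) + u * p)))) ^ (1 / p) := by
    intro u h0 h1
    rw [gagliardo, gagliardo_eq hf, ENNReal.mul_rpow_of_nonneg _ _ hp1.le,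
      ENNReal.ofReal_rpow_of_pos (hm u h0 h1)]
  rw [e s (by linarith) (by linarith), e t (by linarith) ht, lpNorm]
  set S := ENNReal.ofReal (min s (1 - s)) *
        ∫⁻ h, modulus p f h * ENNReal.ofReal (‖h‖ ^ (-((N : ℝ) + s * p)))
  set T := ENNReal.ofReal (min t (1 - t)) *
        ∫⁻ h, modulus p f h * ENNReal.ofReal (‖h‖ ^ (-((N : ℝ) + t * p)))
  set F := ∫⁻ x, ENNReal.ofReal (‖f x‖ ^ p)
  have h1 : S ≤ ENNReal.ofReal C * (F + T) := by
    refine key.trans ?_
    rw [mul_add, add_comm]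
    gcongr
    · rw [← hK, ← ENNReal.ofReal_toReal hKt]
      exact ENNReal.ofReal_le_ofReal (le_max_right _ _)
    · exact le_max_left _ _
  calc S ^ (1 / p) ≤ (ENNReal.ofReal C * (F + T)) ^ (1 / p) := ENNReal.rpow_le_rpow h1 hp1.le
    _ = ENNReal.ofReal (C ^ (1 / p)) * (F + T) ^ (1 / p) := by
        rw [ENNReal.mul_rpow_of_nonneg _ _ hp1.le, ENNReal.ofReal_rpow_of_pos hC0]
    _ ≤ ENNReal.ofReal (C ^ (1 / p)) * (F ^ (1 / p) + T ^ (1 / p)) := by
        gcongr
        exact ENNReal.rpow_add_le_add_rpow _ _ hp1.le hp2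

end Pool.Agent.Results.MP_95ea62_an.UniformComparisonH85
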